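import Pool.Agent.N602.RR.Ens2

/-!
# MP_9b7f10_lc, Q1: random linear systems in `n² polylog(n/ε)` exact real operations

The model (`Pool.Agent.N602.RR.Model`): programs over data built from real numbers, `nil` and
pairs, with the exact operations `+, -, *, /`, integer constants, the test `0 < x`, pairing and
projections, sequencing, branching and while loops. `Ev P x y t` says that `P` stops on `x` with
result `y` after exactly `t` steps; *every* operation (not only the arithmetic ones) costs a step.
Inputs and outputs are plain lists of real numbers.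
-/

set_option autoImplicit false

namespace Pool.Agent.Results.MP_9b7f10_lc.QuadraticTime

open Pool.Agent.N602.RR Matrix MeasureTheory ProbabilityTheory Filter Topology
open scoped ENNReal

/-- the three ensembles -/
inductive Ensemble
  | gaussian | rademacher | bernoulli

/-- the law of an entry: standard Gaussian, uniform on `{-1, 1}`, uniform on `{0, 1}` -/
noncomputable def Ensemble.law : Ensemble → Measure ℝ
  | .gaussian => gaussianReal 0 1
  | .rademacher => (1 / 2 : ℝ≥0∞) • Measure.dirac 1 + (1 / 2 : ℝ≥0∞) • Measure.dirac (-1)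
  | .bernoulli => (1 / 2 : ℝ≥0∞) • Measure.dirac 1 + (1 / 2 : ℝ≥0∞) • Measure.dirac 0

/-- the probability that the random matrix with independent entries of the given law lies in
`E`; `toMat n ω` is the matrix with the entries `ω (i, j)` -/
noncomputable def prob (e : Ensemble) (n : ℕ) (E : Set (Matrix (Fin n) (Fin n) ℝ)) : ℝ≥0∞ :=
  Measure.pi (fun _ : Fin n × Fin n => e.law) {ω | toMat n ω ∈ E}

/-- The systems with matrix in `E n` are solved to accuracy `ε` in at most
`C f(n) log^k(n/ε)` steps of the program `P`. -/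
def Solves (P : Prog) (E : (n : ℕ) → Set (Matrix (Fin n) (Fin n) ℝ)) (C : ℝ) (k : ℕ)
    (f : ℕ → ℝ) : Prop :=
  ∀ (n : ℕ), 1 ≤ n → ∀ (A : Matrix (Fin n) (Fin n) ℝ), A ∈ E n →
    ∀ (b : Fin n → ℝ) (ε : ℝ), 0 < ε → ε < 1 →
    ∃ (t : ℕ) (x : Fin n → ℝ), Ev P (input A b ε) (output x) t ∧
      nn (A *ᵥ x - b) ≤ ε * nn b ∧ (t : ℝ) ≤ C * f n * Real.log (n / ε) ^ k

theorem prob_good (e : Ensemble) : Tendsto (fun n => prob e n (Good n)) atTop (𝓝 1) := by
  cases e with
  | gaussian =>
    exact tendsto_of_compl (fun n => Measure.pi (fun _ : Fin n × Fin n => gaussianReal 0 1))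
      (fun n => {ω | toMat n ω ∈ Good n}) gaussian_good
  | rademacher =>
    have h := two_valued 1 (-1) (by norm_num) (by norm_num) (by norm_num)
    exact tendsto_of_compl (fun n => Measure.pi (fun _ : Fin n × Fin n => twoPt 1 (-1)))
      (fun n => {ω | toMat n ω ∈ Good n}) h
  | bernoulli =>
    have h := two_valued 1 0 (by norm_num) (by norm_num) (by norm_num)
    exact tendsto_of_compl (fun n => Measure.pi (fun _ : Fin n × Fin n => twoPt 1 0))
      (fun n => {ω | toMat n ω ∈ Good n}) h

/-- **Random systems are solved in `C n² log^k(n/ε)` steps**, for each of the three ensembles,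
with probability tending to one; the program, `C`, `k` and the events do not depend on the
ensemble. In particular, for every real number `w > 2` (such as the exponent of matrix
multiplication, if that is larger than `2`) there is `δ > 0` such that the bound
`C n^(w-δ) log^k(n/ε)` holds. -/
theorem result :
    (∃ (P : Prog) (C : ℝ) (k : ℕ) (E : (n : ℕ) → Set (Matrix (Fin n) (Fin n) ℝ)),
      (∀ e : Ensemble, Tendsto (fun n => prob e n (E n)) atTop (𝓝 1)) ∧
      Solves P E C k (fun n => (n : ℝ) ^ 2)) ∧
    (∀ w : ℝ, 2 < w → ∃ (δ : ℝ) (P : Prog) (C : ℝ) (k : ℕ)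
      (E : (n : ℕ) → Set (Matrix (Fin n) (Fin n) ℝ)), 0 < δ ∧
      (∀ e : Ensemble, Tendsto (fun n => prob e n (E n)) atTop (𝓝 1)) ∧
      Solves P E C k (fun n => (n : ℝ) ^ (w - δ))) := by
  obtain ⟨P, C, h⟩ := solver2
  have hS : Solves P Good C 3 (fun n => (n : ℝ) ^ 2) := fun n _ A hA b ε h0 h1 => h n A hA b ε h0 h1
  refine ⟨⟨P, C, 3, Good, prob_good, hS⟩, fun w hw => ⟨w - 2, P, C, 3, Good, by linarith,
    prob_good, ?_⟩⟩
  have hf : (fun n : ℕ => (n : ℝ) ^ (w - (w - 2))) = fun n : ℕ => (n : ℝ) ^ 2 := by
    funext n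
    rw [sub_sub_cancel]
    norm_num
  rw [hf]
  exact hS

end Pool.Agent.Results.MP_9b7f10_lc.QuadraticTime
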